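import Pool.Agent.Lib.MP_edb5be_nt.ND.Iface

/-!
Project ND (MP_edb5be_nt), module CONV (helper6).
-/

set_option autoImplicit false

namespace Pool.Agent.Lib.MP_edb5be_nt.ND.H6

open Finset Pool.Agent.Lib.MP_0a5adf_nt.TP

theorem cth_lo : (3 : ℝ) / 2 ≤ th := by
  unfold th
  rw [Real.le_logb_iff_rpow_le (by norm_num) (by norm_num)]
  have h1 : ((2 : ℝ) ^ ((3 : ℝ) / 2)) ^ (2 : ℕ) ≤ (3 : ℝ) ^ (2 : ℕ) := by
    rw [← Real.rpow_natCast ((2 : ℝ) ^ ((3 : ℝ) / 2)), ← Real.rpow_mul (by norm_num)]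
    have h2 : ((3 : ℝ) / 2) * ((2 : ℕ) : ℝ) = ((3 : ℕ) : ℝ) := by norm_num
    rw [h2, Real.rpow_natCast]; norm_num
  exact le_of_pow_le_pow_left₀ (by norm_num) (by norm_num) h1

theorem cth_hi : th ≤ (8 : ℝ) / 5 := by
  unfold th
  rw [Real.logb_le_iff_le_rpow (by norm_num) (by norm_num)]
  have h1 : (3 : ℝ) ^ (5 : ℕ) ≤ ((2 : ℝ) ^ ((8 : ℝ) / 5)) ^ (5 : ℕ) := by
    rw [← Real.rpow_natCast ((2 : ℝ) ^ ((8 : ℝ) / 5)), ← Real.rpow_mul (by norm_num)]
    have h2 : ((8 : ℝ) / 5) * ((5 : ℕ) : ℝ) = ((8 : ℕ) : ℝ) := by norm_num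
    rw [h2, Real.rpow_natCast]; norm_num
  exact le_of_pow_le_pow_left₀ (by norm_num) (by positivity) h1

theorem bw_nonneg (J v : ℕ) : 0 ≤ bw J v := by unfold bw; positivity

/-- The error function. -/
noncomputable def ph (u : ℝ) : ℝ := u ^ (-(1 / 38) : ℝ)

theorem ph_pos {u : ℝ} (hu : 0 < u) : 0 < ph u := Real.rpow_pos_of_pos hu _

theorem ph_anti {a b : ℝ} (ha : 0 < a) (hab : a ≤ b) : ph b ≤ ph a :=
  Real.rpow_le_rpow_of_nonpos ha hab (by norm_num)

theorem ph_mul {a b : ℝ} (ha : 0 ≤ a) (hb : 0 ≤ b) : ph (a * b) = ph a * ph b :=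
  Real.mul_rpow ha hb

theorem inv_le_ph {u : ℝ} (hu : 1 ≤ u) : 1 / u ≤ ph u := by
  have h : (1 : ℝ) / u = u ^ (-1 : ℝ) := by
    rw [Real.rpow_neg_one, one_div]
  rw [h]
  exact Real.rpow_le_rpow_of_exponent_le hu (by norm_num)

theorem inv_sqrt_le_ph {u : ℝ} (hu : 1 ≤ u) : 1 / √u ≤ ph u := by
  have h : (1 : ℝ) / √u = u ^ (-(1 / 2) : ℝ) := by
    rw [Real.sqrt_eq_rpow, Real.rpow_neg (by linarith), one_div]
  rw [h]
  exact Real.rpow_le_rpow_of_exponent_le hu (by norm_num)

theorem ph_half {u : ℝ} (hu : 0 < u) : ph (u / 2) ≤ 2 * ph u := by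
  have h : u / 2 = u * (1 / 2) := by ring
  rw [h, ph_mul hu.le (by norm_num), mul_comm]
  apply mul_le_mul_of_nonneg_right _ (ph_pos hu).le
  have : ph (1 / 2) ≤ (1 / 2 : ℝ) ^ (-1 : ℝ) :=
    Real.rpow_le_rpow_of_exponent_ge (by norm_num) (by norm_num) (by norm_num)
  refine this.trans ?_
  rw [Real.rpow_neg_one]; norm_num

/-- Comparison of the values at `u` and at `a ∈ [0.995 u, u]`. -/
theorem near (tg : TGStatement) (shifts : ShiftsStatement) (bin : BinStatement) :
    ∃ C u₀ : ℝ, 0 < C ∧ 1 ≤ u₀ ∧ ∀ (d : Bool) (B : Set ℕ) (lo : ℕ) (u a : ℝ),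
      u₀ ≤ u → 995 / 1000 * u ≤ a → a ≤ u → (lo : ℝ) ≤ 85 / 100 * a → InvA d B lo →
      |Gd B u - Gd B a| ≤ C * ph u := by
  obtain ⟨C1, u1, hC1, htg⟩ := tg
  obtain ⟨C2, u2, hC2, hsh⟩ := shifts
  refine ⟨C1 + 8 * C2, max (2 * |u2|) (max |u1| 100), by positivity,
    le_trans (by norm_num) ((le_max_right _ _).trans (le_max_right _ _)), ?_⟩
  intro d B lo u a hu hau hau' hlo hB
  have hu2 : 2 * |u2| ≤ u := (le_max_left _ _).trans hu
  have hu1 : |u1| ≤ u := (le_max_left _ _).trans ((le_max_right _ _).trans hu)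
  have hu100 : 100 ≤ u := (le_max_right _ _).trans ((le_max_right _ _).trans hu)
  have hupos : 0 < u := by linarith
  have hapos : 0 < a := by linarith
  have h1 := cth_lo
  have h2 := cth_hi
  have hmu1 : 1 / 5 ≤ mu := by unfold mu; linarith
  have hmu2 : mu ≤ 1 / 4 := by unfold mu; linarith
  have hmu0 : 0 < mu := by linarith
  have hu1' : u1 ≤ u := (le_abs_self _).trans hu1
  have hu2' : u2 ≤ |u2| := le_abs_self _
  set J : ℕ := ⌊(u - a) / mu⌋₊ with hJ
  have hJ1 : (J : ℝ) ≤ (u - a) / mu := Nat.floor_le (by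
    apply div_nonneg _ hmu0.le; linarith)
  have hJ2 : (u - a) / mu < J + 1 := Nat.lt_floor_add_one _
  have hJmu1 : mu * J ≤ u - a := by
    have := (le_div_iff₀ hmu0).1 hJ1
    linarith
  have hJmu2 : u - a < mu * J + mu := by
    have := (div_lt_iff₀ hmu0).1 hJ2
    linarith
  have hJu : (J : ℝ) ≤ u / 40 := by
    have h0 := mul_le_mul_of_nonneg_right hmu1 (Nat.cast_nonneg (α := ℝ) J)
    linarith
  have hJ0 : (0 : ℝ) ≤ J := Nat.cast_nonneg _
  set w : ℝ := u - mu * J with hw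
  have hwa : a ≤ w := by rw [hw]; linarith
  have hwa' : w ≤ a + mu := by rw [hw]; linarith
  have hwu : 995 / 1000 * u ≤ w := hau.trans hwa
  have hwpos : 0 < w := by linarith
  -- step 1
  have e1 : |Gd B u - PJ J (Gd B) u| ≤ C1 * ph u := by
    refine (htg d B lo u J hu1' (by linarith) hB (by linarith)).trans ?_
    rw [div_eq_mul_one_div]
    exact mul_le_mul_of_nonneg_left (inv_le_ph (by linarith)) hC1.le
  -- step 2
  obtain ⟨hsum, -, -, hmean⟩ := bin J
  have key : ∀ v ∈ range (J + 1),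
      |Gd B (u - J + th * v) - Gd B w| ≤ C2 * (th * |(v : ℝ) - J / 2| / w + ph w) := by
    intro v hv
    have hv' : (v : ℝ) ≤ J := by
      have := mem_range.1 hv
      exact_mod_cast Nat.lt_succ_iff.1 this
    have hv0 : (0 : ℝ) ≤ v := Nat.cast_nonneg _
    have hs : u - J + th * v = w + th * ((v : ℝ) - J / 2) := by
      rw [hw]; unfold mu; ring
    have habs : |th * ((v : ℝ) - J / 2)| = th * |(v : ℝ) - J / 2| := by
      rw [abs_mul, abs_of_nonneg (by linarith : 0 ≤ th)]
    have hle : |(v : ℝ) - J / 2| ≤ J / 2 := by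
      rw [abs_le]; constructor <;> linarith
    have hb : |th * ((v : ℝ) - J / 2)| ≤ w / 30 := by
      rw [habs]
      have : th * |(v : ℝ) - J / 2| ≤ 8 / 5 * (J / 2) := by
        apply mul_le_mul h2 hle (abs_nonneg _) (by norm_num)
      linarith
    have := hsh d B lo w (th * ((v : ℝ) - J / 2)) (by linarith) (by linarith) hB hb
    rw [habs] at this
    rw [hs]
    exact this
  have e2 : |PJ J (Gd B) u - Gd B w| ≤ 3 * C2 * ph u := by
    have hrw : PJ J (Gd B) u - Gd B w
        = ∑ v ∈ range (J + 1), bw J v * (Gd B (u - J + th * v) - Gd B w) := by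
      simp only [mul_sub, sum_sub_distrib]
      rw [← sum_mul, hsum, one_mul]
      rfl
    rw [hrw]
    refine (abs_sum_le_sum_abs _ _).trans ?_
    have h3 : ∑ v ∈ range (J + 1), |bw J v * (Gd B (u - J + th * v) - Gd B w)|
        ≤ ∑ v ∈ range (J + 1), bw J v * (C2 * (th * |(v : ℝ) - J / 2| / w + ph w)) := by
      apply sum_le_sum
      intro v hv
      rw [abs_mul, abs_of_nonneg (bw_nonneg _ _)]
      exact mul_le_mul_of_nonneg_left (key v hv) (bw_nonneg _ _)
    refine h3.trans ?_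
    have h4 : ∑ v ∈ range (J + 1), bw J v * (C2 * (th * |(v : ℝ) - J / 2| / w + ph w))
        = C2 * th / w * (∑ v ∈ range (J + 1), bw J v * |(v : ℝ) - J / 2|) + C2 * ph w := by
      have : ∀ v ∈ range (J + 1), bw J v * (C2 * (th * |(v : ℝ) - J / 2| / w + ph w))
          = C2 * th / w * (bw J v * |(v : ℝ) - J / 2|) + bw J v * (C2 * ph w) := by
        intro v _; ring
      rw [sum_congr rfl this, sum_add_distrib, ← mul_sum, ← sum_mul, hsum, one_mul]
    rw [h4]
    have h5 : √(J : ℝ) ≤ √u / 5 := by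
      rw [Real.sqrt_le_left (by positivity), div_pow, Real.sq_sqrt hupos.le]
      linarith
    have h6 : C2 * th / w * (∑ v ∈ range (J + 1), bw J v * |(v : ℝ) - J / 2|)
        ≤ C2 * ph u := by
      have hA : C2 * th / w ≤ 2 * C2 / u := by
        rw [div_le_div_iff₀ hwpos hupos]
        have hx : th * u ≤ 2 * w := (mul_le_mul_of_nonneg_right h2 hupos.le).trans (by linarith)
        linarith [mul_le_mul_of_nonneg_left hx hC2.le]
      have hB' : (∑ v ∈ range (J + 1), bw J v * |(v : ℝ) - J / 2|) ≤ √u / 2 := by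
        linarith [Real.sqrt_nonneg u]
      have hC' : 0 ≤ ∑ v ∈ range (J + 1), bw J v * |(v : ℝ) - J / 2| :=
        sum_nonneg fun v _ => mul_nonneg (bw_nonneg _ _) (abs_nonneg _)
      calc C2 * th / w * (∑ v ∈ range (J + 1), bw J v * |(v : ℝ) - J / 2|)
          ≤ 2 * C2 / u * (√u / 2) := mul_le_mul hA hB' hC' (by positivity)
        _ = C2 * (1 / √u) := by
            have h0 : √u * √u = u := Real.mul_self_sqrt hupos.le
            have h0' : √u ≠ 0 := (Real.sqrt_pos.2 hupos).ne'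
            rw [mul_one_div, div_mul_div_comm,
              div_eq_div_iff (mul_ne_zero hupos.ne' two_ne_zero) h0']
            linear_combination 2 * C2 * h0
        _ ≤ C2 * ph u := mul_le_mul_of_nonneg_left (inv_sqrt_le_ph (by linarith)) hC2.le
    have h7 : ph w ≤ 2 * ph u := (ph_anti (by positivity) (by linarith)).trans (ph_half hupos)
    have h8 := mul_le_mul_of_nonneg_left h7 hC2.le
    linarith
  -- step 3
  have e3 : |Gd B w - Gd B a| ≤ 4 * C2 * ph u := by
    have h3 := hsh d B lo a (w - a) (by linarith) (by linarith) hB (by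
      rw [abs_of_nonneg (by linarith)]; linarith)
    have h4 : a + (w - a) = w := by ring
    rw [h4, abs_of_nonneg (by linarith : 0 ≤ w - a)] at h3
    refine h3.trans ?_
    have h5 : (w - a) / a ≤ ph u := by
      have : (w - a) / a ≤ 1 / u := by
        rw [div_le_div_iff₀ hapos hupos]
        have h0 := mul_le_mul_of_nonneg_right (show w - a ≤ 1 / 4 by linarith) hupos.le
        linarith
      exact this.trans (inv_le_ph (by linarith))
    have h6 : ph a ≤ 2 * ph u := (ph_anti (by positivity) (by linarith)).trans (ph_half hupos)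
    have h7 : a ^ (-(1 / 38) : ℝ) = ph a := rfl
    rw [h7]
    have h8 := mul_le_mul_of_nonneg_left (add_le_add h5 h6) hC2.le
    have h9 := mul_pos hC2 (ph_pos hupos)
    linarith
  have tri : Gd B u - Gd B a
      = (Gd B u - PJ J (Gd B) u) + (PJ J (Gd B) u - Gd B w) + (Gd B w - Gd B a) := by ring
  rw [tri]
  refine (abs_add_three _ _ _).trans ?_
  have h9 := mul_pos hC2 (ph_pos hupos)
  linarith

/-- CONV. -/
theorem conv (tg : TGStatement) (shifts : ShiftsStatement) (bin : BinStatement)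
    (lip : LipStatement) : ConvStatement := by
  obtain ⟨C, u₀, hC, hu₀, hnear⟩ := near tg shifts bin
  set r : ℝ := 1000 / 995 with hr
  have hr1 : 1 < r := by rw [hr]; norm_num
  set ρ : ℝ := ph r with hρ
  have hρ0 : 0 < ρ := ph_pos (by linarith)
  have hρ1 : ρ < 1 := by
    rw [hρ]
    exact Real.rpow_lt_one_of_one_lt_of_neg hr1 (by norm_num)
  set C' : ℝ := C / (1 - ρ) with hC'
  have h1ρ : 0 < 1 - ρ := by linarith
  have hC'pos : 0 < C' := by positivity
  have hCC' : C ≤ C' := by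
    rw [hC', le_div_iff₀ h1ρ]
    have h0 := mul_pos hC hρ0
    linarith
  have hrec : (C + C') * ρ ≤ C' := by
    have h0 : C' * (1 - ρ) = C := by rw [hC']; field_simp
    have h1 := mul_pos hC h1ρ
    linarith
  have chain : ∀ n : ℕ, ∀ (d : Bool) (B : Set ℕ) (lo : ℕ) (u w : ℝ), u₀ ≤ u →
      (lo : ℝ) ≤ 85 / 100 * u → InvA d B lo → u ≤ w → w ≤ r ^ n * u →
      |Gd B w - Gd B u| ≤ C' * ph u := by
    intro n
    induction n with
    | zero =>
      intro d B lo u w hu hlo hB h1 h2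
      have : w = u := le_antisymm (by simpa using h2) h1
      rw [this, sub_self, abs_zero]
      exact mul_nonneg hC'pos.le (ph_pos (by linarith)).le
    | succ n ih =>
      intro d B lo u w hu hlo hB h1 h2
      have hupos : 0 < u := by linarith
      have hphu := ph_pos hupos
      rcases le_total w (r * u) with h3 | h3
      · have h4 : 995 / 1000 * w ≤ u := by rw [hr] at h3; linarith
        refine (hnear d B lo w u (by linarith) h4 h1 hlo hB).trans ?_
        have h5 := ph_anti hupos h1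
        have h6 := ph_pos (lt_of_lt_of_le hupos h1)
        exact mul_le_mul hCC' h5 h6.le hC'pos.le
      · have hru : u ≤ r * u := le_mul_of_one_le_left hupos.le hr1.le
        have e1 := ih d B lo (r * u) w (hu.trans hru) (by linarith) hB h3 (by
          calc w ≤ r ^ (n + 1) * u := h2
            _ = r ^ n * (r * u) := by ring)
        have e2 := hnear d B lo (r * u) u (hu.trans hru) (by rw [hr]; linarith) hru hlo hB
        have h5 : ph (r * u) = ρ * ph u := ph_mul (by linarith) hupos.le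
        rw [h5] at e1 e2
        have tri : Gd B w - Gd B u = (Gd B w - Gd B (r * u)) + (Gd B (r * u) - Gd B u) := by ring
        rw [tri]
        refine (abs_add_le _ _).trans ?_
        have h8 := mul_le_mul_of_nonneg_right hrec hphu.le
        linarith
  have big : ∀ (d : Bool) (B : Set ℕ) (lo : ℕ) (u w : ℝ), u₀ ≤ u →
      (lo : ℝ) ≤ 85 / 100 * u → InvA d B lo → u ≤ w → |Gd B w - Gd B u| ≤ C' * ph u := by
    intro d B lo u w hu hlo hB h1
    have hupos : 0 < u := by linarith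
    obtain ⟨n, hn⟩ := pow_unbounded_of_one_lt (w / u) hr1
    exact chain n d B lo u w hu hlo hB h1 ((div_le_iff₀ hupos).1 hn.le)
  have htend : Filter.Tendsto (fun n : ℕ => C' * ph (n : ℝ)) Filter.atTop (nhds 0) := by
    have h1 : Filter.Tendsto (fun x : ℝ => x ^ (-(1 / 38) : ℝ)) Filter.atTop (nhds 0) :=
      tendsto_rpow_neg_atTop (by norm_num)
    have h2 := (h1.comp tendsto_natCast_atTop_atTop).const_mul C'
    rw [mul_zero] at h2
    exact h2
  refine ⟨C', u₀, hC'pos, ?_⟩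
  intro d B lo hB
  -- existence of the limit
  set N0 : ℕ := ⌈max u₀ (2 * lo)⌉₊ + 1 with hN0
  have hN0' : ∀ n : ℕ, N0 ≤ n → u₀ ≤ (n : ℝ) ∧ (lo : ℝ) ≤ 85 / 100 * n := by
    intro n hn
    have h1 : max u₀ (2 * (lo : ℝ)) ≤ n := by
      refine (Nat.le_ceil _).trans ?_
      exact_mod_cast (Nat.le_succ _).trans hn
    have h2 : (0 : ℝ) ≤ lo := Nat.cast_nonneg _
    exact ⟨(le_max_left _ _).trans h1, by linarith [(le_max_right u₀ (2 * (lo : ℝ))).trans h1]⟩
  have hcau : CauchySeq (fun n : ℕ => Gd B (n : ℝ)) := by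
    rw [Metric.cauchySeq_iff']
    intro ε hε
    obtain ⟨N1, hN1⟩ := ((Metric.tendsto_atTop.1 htend) ε hε)
    refine ⟨max N0 N1, fun n hn => ?_⟩
    have h1 := hN0' (max N0 N1) (le_max_left _ _)
    have h2 := big d B lo ((max N0 N1 : ℕ) : ℝ) (n : ℝ) h1.1 h1.2 hB (by exact_mod_cast hn)
    have h3 := hN1 (max N0 N1) (le_max_right _ _)
    rw [Real.dist_eq, sub_zero] at h3
    rw [Real.dist_eq]
    exact lt_of_le_of_lt (h2.trans (le_abs_self _)) h3
  obtain ⟨D, hD⟩ := cauchySeq_tendsto_of_complete hcau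
  refine ⟨D, ?_, ?_, ?_⟩
  · apply ge_of_tendsto' hD
    intro n
    exact (lip B n 0 (Nat.cast_nonneg _) le_rfl zero_le_one).1
  · have h1 : Filter.Tendsto (fun n : ℕ => 1 + 1 / (2 : ℝ) ^ (n : ℝ)) Filter.atTop (nhds 1) := by
      have h2 : Filter.Tendsto (fun n : ℕ => ((1 / 2 : ℝ)) ^ n) Filter.atTop (nhds 0) :=
        tendsto_pow_atTop_nhds_zero_of_lt_one (by norm_num) (by norm_num)
      have h3 : (fun n : ℕ => 1 + 1 / (2 : ℝ) ^ (n : ℝ)) = fun n : ℕ => 1 + (1 / 2 : ℝ) ^ n := by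
        funext n
        rw [Real.rpow_natCast, one_div_pow]
      rw [h3]
      simpa using h2.const_add 1
    exact le_of_tendsto_of_tendsto' hD h1 fun n =>
      (lip B n 0 (Nat.cast_nonneg _) le_rfl zero_le_one).2.1
  · intro u hu hlo
    have hlo' : (lo : ℝ) ≤ 85 / 100 * u := by linarith
    have h1 : Filter.Tendsto (fun n : ℕ => |Gd B u - Gd B (n : ℝ)|) Filter.atTop
        (nhds |Gd B u - D|) := (hD.const_sub _).abs
    apply le_of_tendsto h1
    filter_upwards [Filter.eventually_ge_atTop ⌈u⌉₊] with n hn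
    rw [abs_sub_comm]
    exact big d B lo u n hu hlo' hB ((Nat.le_ceil _).trans (by exact_mod_cast hn))

end Pool.Agent.Lib.MP_edb5be_nt.ND.H6
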