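import Pool.Agent.Lib.MP_edb5be_nt.ND.Iface

/-!
Project ND (MP_edb5be_nt), module SHIFTS (helper6).
-/

set_option autoImplicit false

namespace Pool.Agent.Lib.MP_edb5be_nt.ND.H6

open Finset Pool.Agent.Lib.MP_0a5adf_nt.TP

theorem th_lo : (79 : ℝ) / 50 ≤ th := by
  unfold th
  rw [Real.le_logb_iff_rpow_le (by norm_num) (by norm_num)]
  have h1 : ((2 : ℝ) ^ ((79 : ℝ) / 50)) ^ (50 : ℕ) ≤ (3 : ℝ) ^ (50 : ℕ) := by
    rw [← Real.rpow_natCast ((2 : ℝ) ^ ((79 : ℝ) / 50)), ← Real.rpow_mul (by norm_num)]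
    have h2 : ((79 : ℝ) / 50) * ((50 : ℕ) : ℝ) = ((79 : ℕ) : ℝ) := by norm_num
    rw [h2, Real.rpow_natCast]; norm_num
  exact le_of_pow_le_pow_left₀ (by norm_num) (by norm_num) h1

theorem th_hi : th ≤ (65 : ℝ) / 41 := by
  unfold th
  rw [Real.logb_le_iff_le_rpow (by norm_num) (by norm_num)]
  have h1 : (3 : ℝ) ^ (41 : ℕ) ≤ ((2 : ℝ) ^ ((65 : ℝ) / 41)) ^ (41 : ℕ) := by
    rw [← Real.rpow_natCast ((2 : ℝ) ^ ((65 : ℝ) / 41)), ← Real.rpow_mul (by norm_num)]
    have h2 : ((65 : ℝ) / 41) * ((41 : ℕ) : ℝ) = ((65 : ℕ) : ℝ) := by norm_num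
    rw [h2, Real.rpow_natCast]; norm_num
  exact le_of_pow_le_pow_left₀ (by norm_num) (by positivity) h1

/-- Walk with natural number of steps. -/
theorem walk {G : ℝ → ℝ} {δ c P : ℝ} (hδ : 0 ≤ δ)
    (h : ∀ p, P ≤ p → |G (p + δ) - G p| ≤ c) (n : ℕ) (p : ℝ) (hp : P ≤ p) :
    |G (p + n * δ) - G p| ≤ n * c := by
  induction n with
  | zero => simp
  | succ n ih =>
    have h1 : P ≤ p + n * δ := le_trans hp (by
      have : 0 ≤ (n : ℝ) * δ := by positivity
      linarith)
    have h2 := h _ h1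
    have h3 : p + ((n + 1 : ℕ) : ℝ) * δ = p + n * δ + δ := by push_cast; ring
    rw [h3]
    have h4 : G (p + n * δ + δ) - G p
        = (G (p + n * δ + δ) - G (p + n * δ)) + (G (p + n * δ) - G p) := by ring
    rw [h4]
    refine (abs_add_le _ _).trans ?_
    push_cast
    linarith

/-- Walk with an integral number of steps. -/
theorem walkZ {G : ℝ → ℝ} {δ c P : ℝ} (hδ : 0 ≤ δ)
    (h : ∀ p, P ≤ p → |G (p + δ) - G p| ≤ c) (n : ℤ) (p : ℝ) (hp : P ≤ p)
    (hq : P ≤ p + n * δ) : |G (p + n * δ) - G p| ≤ |(n : ℝ)| * c := by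
  rcases le_total 0 n with hn | hn
  · obtain ⟨m, rfl⟩ := Int.eq_ofNat_of_zero_le hn
    have := walk hδ h m p hp
    simpa using this
  · obtain ⟨m, hm⟩ := Int.eq_ofNat_of_zero_le (by omega : 0 ≤ -n)
    have hm' : n = -(m : ℤ) := by omega
    subst hm'
    have h1 := walk hδ h m (p + ((-(m : ℤ) : ℤ) : ℝ) * δ) hq
    have h2 : p + ((-(m : ℤ) : ℤ) : ℝ) * δ + m * δ = p := by push_cast; ring
    rw [h2] at h1
    rw [abs_sub_comm]
    have h3 : |((-(m : ℤ) : ℤ) : ℝ)| = m := by push_cast; simp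
    rw [h3]; exact h1

theorem fin_ineq {A B C1 C2 : ℝ} (hA : 0 ≤ A) (hB : 0 ≤ B) (h1 : 0 ≤ C1) (h2 : 0 ≤ C2 * C1) :
    20 * B + 2 * C2 * C1 * B + (4 * C1 * A + (2 * C1 + 2 * C2 * C1) * B)
      ≤ (4 * C1 + (2 * C1 + 2 * C2 * C1) + 2 * C2 * C1 + 20) * (A + B) := by
  linarith [mul_nonneg h2 hA, mul_nonneg h2 hB, mul_nonneg h1 hB, mul_nonneg h1 hA]

/-- SHIFTS. -/
theorem shifts (slow : SlowStatement) (kron : KronStatement) (lip : LipStatement) :
    ShiftsStatement := by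
  obtain ⟨C1, u1, hC1, hslow⟩ := slow
  obtain ⟨C2, hC2, hkron⟩ := kron
  set K : ℝ := 2 * C2 + 2 with hK
  have hKpos : 0 < K := by positivity
  refine ⟨4 * C1 + (2 * C1 + 2 * C2 * C1) + 2 * C2 * C1 + 20, max (2 * |u1|) (max 4 ((150 * K) ^ 2)),
    by positivity, ?_⟩
  intro d B lo u s hu hlo hB hs
  have hu1 : 2 * |u1| ≤ u := (le_max_left _ _).trans hu
  have hu4 : 4 ≤ u := (le_max_left _ _).trans ((le_max_right _ _).trans hu)
  have huK : (150 * K) ^ 2 ≤ u := (le_max_right _ _).trans ((le_max_right _ _).trans hu)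
  have hupos : 0 < u := by linarith
  set q : ℝ := u ^ ((1 : ℝ) / 38) with hq
  have hqpos : 0 < q := Real.rpow_pos_of_pos hupos _
  have hq1 : 1 ≤ q := Real.one_le_rpow (by linarith) (by norm_num)
  have hq38 : q ^ 38 = u := by
    rw [hq, ← Real.rpow_natCast, ← Real.rpow_mul hupos.le]; norm_num
  have hqinv : u ^ (-(1 / 38) : ℝ) = 1 / q := by
    rw [Real.rpow_neg hupos.le, hq, one_div (u ^ ((1 : ℝ) / 38))]
  have hsq : √u = q ^ 19 := by
    rw [Real.sqrt_eq_iff_mul_self_eq hupos.le (by positivity), ← hq38]; ring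
  have hsqK : K * √u ≤ u / 150 := by
    have h1 : 150 * K ≤ √u := Real.le_sqrt_of_sq_le huK
    have h2 : √u * √u = u := Real.mul_self_sqrt hupos.le
    have h3 := mul_le_mul_of_nonneg_right h1 (Real.sqrt_nonneg u)
    rw [h2] at h3
    linarith
  have hq18 : q ^ 18 ≤ √u := by
    rw [hsq]
    calc q ^ 18 = q ^ 18 * 1 := by ring
      _ ≤ q ^ 18 * q := by gcongr
      _ = q ^ 19 := by ring
  have hsq1 : 1 ≤ √u := by
    rw [hsq]; exact one_le_pow₀ hq1
  have hqu2 : q ≤ u / 2 := by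
    have h1 : q ≤ √u := by
      rw [hsq]
      calc q = q * 1 := by ring
        _ ≤ q * q ^ 18 := by gcongr; exact one_le_pow₀ hq1
        _ = q ^ 19 := by ring
    have h2 : √u * √u = u := Real.mul_self_sqrt hupos.le
    have h3 : 2 ≤ √u := Real.le_sqrt_of_sq_le (by linarith)
    have h4 := mul_le_mul_of_nonneg_right h3 (Real.sqrt_nonneg u)
    rw [h2] at h4
    linarith
  have hth1 := th_lo
  have hth2 := th_hi
  set δ : ℝ := 2 - th with hδ
  have hδ1 : 41 / 100 ≤ δ := by rw [hδ]; linarith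
  have hδ2 : δ ≤ 21 / 50 := by rw [hδ]; linarith
  have hδpos : 0 < δ := by linarith
  -- decomposition of s
  set a : ℤ := ⌊s / δ⌋ with ha
  set s' : ℝ := s - a * δ with hs'
  have ha1 : (a : ℝ) ≤ s / δ := Int.floor_le _
  have ha2 : s / δ < a + 1 := Int.lt_floor_add_one _
  have hs'0 : 0 ≤ s' := by
    have := (le_div_iff₀ hδpos).1 ha1
    rw [hs']; linarith
  have hs'δ : s' ≤ δ := by
    have := (div_lt_iff₀ hδpos).1 ha2
    rw [hs']; linarith
  have haabs : |(a : ℝ)| * δ ≤ |s| + δ := by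
    have h1 : (a : ℝ) * δ = s - s' := by rw [hs']; ring
    have h2 : |(a : ℝ)| * δ = |s - s'| := by
      rw [← h1, abs_mul, abs_of_pos hδpos]
    rw [h2]
    refine (abs_sub _ _).trans ?_
    rw [abs_of_nonneg hs'0]; linarith
  obtain ⟨α, β, hα, hβ, hr⟩ := hkron q s' hq1 hs'0 (by linarith)
  -- the three legs
  set n : ℤ := a + α with hn
  have hnabs : |(n : ℝ)| ≤ |(a : ℝ)| + C2 * q ^ 18 := by
    rw [hn]; push_cast
    exact (abs_add_le _ _).trans (by linarith)
  have hC2q : C2 * q ^ 18 ≤ C2 * √u := by gcongr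
  have hnδ : |(n : ℝ) * δ| ≤ |s| + (1 / 2) + (1 / 2) * (C2 * √u) := by
    rw [abs_mul, abs_of_pos hδpos]
    have h1 : |(n : ℝ)| * δ ≤ (|(a : ℝ)| + C2 * q ^ 18) * δ := by gcongr
    have h2 : C2 * q ^ 18 * δ ≤ C2 * √u * (1 / 2) := by
      apply mul_le_mul hC2q (by linarith) hδpos.le (by positivity)
    rw [add_mul] at h1
    linarith
  have hβabs : |(β : ℝ)| ≤ C2 * √u := hβ.trans hC2q
  set P : ℝ := 96 / 100 * u with hP
  have hPpos : 0 < P := by positivity
  have hKu : 2 * (C2 * √u) + 2 * √u ≤ u / 150 := by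
    have : K * √u = 2 * (C2 * √u) + 2 * √u := by rw [hK]; ring
    linarith
  have hC2u0 : 0 ≤ C2 * √u := by positivity
  have hPu : P ≤ u := by rw [hP]; linarith
  -- first leg
  have step1 : ∀ p, P ≤ p → |Gd B (p + δ) - Gd B p| ≤ C1 / P := by
    intro p hp
    have h1 := (hslow d B lo p (by
      have : u1 ≤ |u1| := le_abs_self _
      rw [hP] at hp; linarith) (by rw [hP] at hp; linarith) hB).1
    refine h1.trans ?_
    gcongr
  have step2 : ∀ p, P ≤ p → |Gd B (p + 1) - Gd B p| ≤ C1 / √P := by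
    intro p hp
    have h1 := (hslow d B lo p (by
      have : u1 ≤ |u1| := le_abs_self _
      rw [hP] at hp; linarith) (by rw [hP] at hp; linarith) hB).2
    refine h1.trans ?_
    gcongr
  have hnl := abs_le.1 hnδ
  have hbl := abs_le.1 hβabs
  set p1 : ℝ := u + n * δ with hp1
  have hp1P : P + C2 * √u + 2 ≤ p1 := by
    have hsq2 : 2 ≤ √u := Real.le_sqrt_of_sq_le (by linarith)
    rw [hp1, hP]; linarith
  set p2 : ℝ := p1 + β * 1 with hp2
  have hp2P : P + 2 ≤ p2 := by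
    rw [hp2]; linarith
  have leg1 : |Gd B p1 - Gd B u| ≤ |(n : ℝ)| * (C1 / P) :=
    walkZ hδpos.le step1 n u hPu (by rw [← hp1]; linarith)
  have leg2 : |Gd B p2 - Gd B p1| ≤ |(β : ℝ)| * (C1 / √P) :=
    walkZ zero_le_one step2 β p1 (by linarith) (by rw [← hp2]; linarith)
  -- last leg
  have hus : u + s = p2 - (α * δ + β - s') := by
    rw [hp2, hp1, hn, hs']; push_cast; ring
  set r : ℝ := α * δ + β - s' with hr'
  have hr1 : |r| ≤ 1 / q := hr
  have hq1' : 1 / q ≤ 1 := by rw [div_le_one hqpos]; exact hq1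
  have hexp : ∀ p, P ≤ p → 1 / (2 : ℝ) ^ p ≤ 1 / q := by
    intro p hp
    have h1 : q ≤ p := by rw [hP] at hp; linarith
    have h2 : p ≤ (2 : ℝ) ^ p := by
      have hp0 : 0 ≤ p := by linarith
      have h3 := one_add_mul_self_le_rpow_one_add (s := 1) (by norm_num) (p := p)
        (by linarith)
      norm_num at h3
      linarith
    gcongr
    linarith
  have leg3 : |Gd B (u + s) - Gd B p2| ≤ 20 / q := by
    have hrl := abs_le.1 hr1
    rcases le_total 0 r with hr0 | hr0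
    · have h1 := (lip B (u + s) r (by rw [hus]; linarith) hr0 (by linarith)).2.2
      have h2 : u + s + r = p2 := by rw [hus]; ring
      rw [h2] at h1
      have h3 := hexp (u + s) (by rw [hus]; linarith)
      rw [abs_sub_comm]
      refine h1.trans ?_
      have : 20 / q = 10 * (1 / q + 1 / q) := by ring
      rw [this]
      gcongr
      linarith
    · have h1 := (lip B p2 (-r) (by linarith) (by linarith) (by linarith)).2.2
      have h2 : p2 + -r = u + s := by rw [hus]; ring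
      rw [h2] at h1
      have h3 := hexp p2 (by linarith)
      refine h1.trans ?_
      have : 20 / q = 10 * (1 / q + 1 / q) := by ring
      rw [this]
      gcongr
      linarith
  -- bounds for the costs
  have cost1 : |(n : ℝ)| * (C1 / P) ≤ 4 * C1 * (|s| / u) + (2 * C1 + 2 * C2 * C1) * (1 / q) := by
    have hA : |(a : ℝ)| ≤ 5 / 2 * |s| + 1 := by
      have : |(a : ℝ)| * δ ≤ (5 / 2 * |s| + 1) * δ := by
        have h00 := abs_nonneg s
        have h0 := mul_nonneg (abs_nonneg s) (sub_nonneg.2 hδ1)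
        rw [mul_sub] at h0
        rw [add_mul, mul_assoc]
        linarith
      exact le_of_mul_le_mul_right this hδpos
    have h1 : |(n : ℝ)| ≤ 5 / 2 * |s| + 1 + C2 * q ^ 18 := by linarith
    have h2 : C1 / P ≤ 3 / 2 * (C1 / u) := by
      rw [hP, div_le_iff₀ (by positivity)]
      have : 3 / 2 * (C1 / u) * (96 / 100 * u) = 144 / 100 * C1 := by
        field_simp; ring
      rw [this]; linarith
    have h3 : 1 / u ≤ 1 / q := by
      gcongr
      linarith
    have h4 : q ^ 18 * (1 / u) ≤ 1 / q := by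
      rw [← hq38, mul_one_div, div_le_div_iff₀ (by positivity) hqpos, one_mul]
      calc q ^ 18 * q = q ^ 19 := by ring
        _ ≤ q ^ 38 := pow_le_pow_right₀ hq1 (by norm_num)
    calc |(n : ℝ)| * (C1 / P) ≤ (5 / 2 * |s| + 1 + C2 * q ^ 18) * (3 / 2 * (C1 / u)) := by
          apply mul_le_mul h1 h2 (by positivity) (by positivity)
      _ = 15 / 4 * C1 * (|s| / u) + 3 / 2 * C1 * (1 / u) + 3 / 2 * C2 * C1 * (q ^ 18 * (1 / u)) := by
          ring
      _ ≤ 4 * C1 * (|s| / u) + 2 * C1 * (1 / q) + 2 * C2 * C1 * (1 / q) := by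
          have e1 : 0 ≤ C1 * (|s| / u) := by positivity
          have e2 : 3 / 2 * C1 * (1 / u) ≤ 2 * C1 * (1 / q) := by
            apply mul_le_mul (by linarith) h3 (by positivity) (by positivity)
          have e3 : 3 / 2 * C2 * C1 * (q ^ 18 * (1 / u)) ≤ 2 * C2 * C1 * (1 / q) := by
            apply mul_le_mul _ h4 (by positivity) (by positivity)
            have h0 := mul_pos hC2 hC1
            rw [mul_assoc, mul_assoc]
            linarith
          linarith
      _ = 4 * C1 * (|s| / u) + (2 * C1 + 2 * C2 * C1) * (1 / q) := by ring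
  have cost2 : |(β : ℝ)| * (C1 / √P) ≤ 2 * C2 * C1 * (1 / q) := by
    have h1 : √u / 2 ≤ √P := by
      apply Real.le_sqrt_of_sq_le
      rw [div_pow, Real.sq_sqrt hupos.le, hP]; linarith
    have h2 : C1 / √P ≤ 2 * C1 / √u := by
      rw [div_le_div_iff₀ (by positivity) (by positivity)]
      have h0 := mul_le_mul_of_nonneg_left h1 hC1.le
      linarith
    calc |(β : ℝ)| * (C1 / √P) ≤ (C2 * q ^ 18) * (2 * C1 / √u) := by
          apply mul_le_mul hβ h2 (by positivity) (by positivity)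
      _ = 2 * C2 * C1 * (q ^ 18 / √u) := by ring
      _ = 2 * C2 * C1 * (1 / q) := by
          rw [hsq]
          congr 1
          rw [div_eq_div_iff (by positivity) hqpos.ne']
          ring
  rw [hqinv]
  have tri : Gd B (u + s) - Gd B u
      = (Gd B (u + s) - Gd B p2) + (Gd B p2 - Gd B p1) + (Gd B p1 - Gd B u) := by ring
  rw [tri]
  refine (abs_add_three _ _ _).trans ?_
  have hfin : |Gd B (u + s) - Gd B p2| + |Gd B p2 - Gd B p1| + |Gd B p1 - Gd B u|
      ≤ 20 / q + 2 * C2 * C1 * (1 / q)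
        + (4 * C1 * (|s| / u) + (2 * C1 + 2 * C2 * C1) * (1 / q)) := by
    linarith
  refine hfin.trans ?_
  have e1 : 0 ≤ |s| / u := by positivity
  have e2 : 0 ≤ 1 / q := by positivity
  have e3 : 0 ≤ C2 * C1 := by positivity
  have e4 : 20 / q = 20 * (1 / q) := by ring
  rw [e4]
  exact fin_ineq e1 e2 hC1.le e3

end Pool.Agent.Lib.MP_edb5be_nt.ND.H6
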